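import Pool.Agent.Run7.h809.OD.Expl
import Pool.Agent.Run7.h809.OD.Poly
import Pool.Agent.Run7.h323.OD.Tau

/-!
# Ordinary primes for Ramanujan's `Δ`

At least one prime in `10^9` does not divide `τ(p)`: at these primes the Frobenius polynomial
`T² - τ(p) T + p^11` has roots of valuations `0` and `11`, so the motive of `Δ` (the middle
intersection cohomology of the coarse moduli space of stable curves of genus one with eleven
marked points) has an ordinary Frobenius.
-/

set_option autoImplicit false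

open H809.OD

namespace Pool.Agent.Results.MP_db07cb_ag.RamanujanDelta

open Classical in
/-- a lower bound for the number of the primes with `p ∤ τ(p)`, weighted by `log p` -/
theorem log_bound : ∃ x0 : ℕ, ∀ x : ℕ, x0 ≤ x → 2 / 10 ^ 9 * (x : ℝ) ≤
    ∑ p ∈ (Finset.range (x + 1)).filter (fun p : ℕ => p.Prime ∧ ¬ (p : ℤ) ∣ tau p),
      Real.log p := by
  have hd : Delta := Run7.h323.OD.delta_holds theta_holds
  have key := Expl.main_expl 10 RD (fun n => if Odd n then tau n else 0)
    (fun p : ℕ => ¬ (p : ℤ) ∣ tau p) (by norm_num) Run7.h323.OD.RD_ne_zero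
    Run7.h323.OD.RD_natDegree ?_ ?_ ?_ 140 70 563 6351204 6 (by norm_num) (by norm_num)
    (by norm_num) (by norm_num) (by norm_num) (by norm_num)
  · obtain ⟨x0, h⟩ := key
    refine ⟨x0, fun x hx => le_trans ?_ ((h x hx).trans (le_of_eq ?_))⟩
    · refine mul_le_mul_of_nonneg_right ?_ (Nat.cast_nonneg x)
      have := Real.log_two_gt_d9
      norm_num
      linarith
    · exact Finset.sum_congr (by ext p; simp only [Finset.mem_filter]) fun _ _ => rfl
  · intro n
    have h := congrArg (PowerSeries.coeff n) hd.odd_part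
    rw [PowerSeries.coeff_mk] at h
    rw [show (10 + 2 : ℕ) = 12 from rfl, ← h]
    split_ifs <;> simp
  · intro n hn
    exact if_neg (Nat.not_odd_iff_even.2 hn)
  · intro p hp hP n hn hpn
    rw [not_not] at hP
    show (p : ℤ) ∣ if Odd n then tau n else 0
    split_ifs
    · exact Run7.h323.OD.hecke_dvd hd p hp hP n hn hpn
    · exact dvd_zero _

/-- the primes up to `x` which do not divide `τ(p)` -/
theorem count_bound : ∃ x0 : ℕ, ∀ x : ℕ, x0 ≤ x →
    (Nat.primeCounting x : ℝ) / 10 ^ 9 ≤ (Run7.h323.OD.ordPrimes x).card := by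
  classical
  obtain ⟨x0, h⟩ := log_bound
  have hpi := Chebyshev.eventually_primeCounting_le (ε := 1 / 2) (by norm_num)
  rw [Filter.eventually_atTop] at hpi
  obtain ⟨y0, hy⟩ := hpi
  refine ⟨max (max x0 2) ⌈y0⌉₊, fun x hx => ?_⟩
  have hx0 : x0 ≤ x := le_trans (le_trans (le_max_left _ _) (le_max_left _ _)) hx
  have hx2 : 2 ≤ x := le_trans (le_trans (le_max_right _ _) (le_max_left _ _)) hx
  have hxy : y0 ≤ (x : ℝ) :=
    le_trans (Nat.le_ceil y0) (by exact_mod_cast le_trans (le_max_right _ _) hx)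
  have hx2' : (2 : ℝ) ≤ x := by exact_mod_cast hx2
  have hlog : 0 < Real.log x := Real.log_pos (by linarith)
  have h1 := hy x hxy
  rw [Nat.floor_natCast] at h1
  have h4 : Real.log 4 + 1 / 2 ≤ 2 := by
    have : Real.log 4 = 2 * Real.log 2 := by
      rw [show (4 : ℝ) = 2 ^ 2 by norm_num, Real.log_pow]; norm_num
    have := Real.log_two_lt_d9
    linarith
  have h2 : (Nat.primeCounting x : ℝ) * Real.log x ≤ 2 * x := by
    have h3 : (Nat.primeCounting x : ℝ) * Real.log x ≤ (Real.log 4 + 1 / 2) * x := by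
      calc (Nat.primeCounting x : ℝ) * Real.log x
          ≤ ((Real.log 4 + 1 / 2) * x / Real.log x) * Real.log x :=
            mul_le_mul_of_nonneg_right h1 hlog.le
        _ = (Real.log 4 + 1 / 2) * x := by field_simp
    nlinarith
  have h5 : 2 / 10 ^ 9 * (x : ℝ) ≤ (Run7.h323.OD.ordPrimes x).card * Real.log x := by
    refine (h x hx0).trans ?_
    rw [← nsmul_eq_mul]
    refine Finset.sum_le_card_nsmul _ _ _ fun p hp => ?_
    rw [Finset.mem_filter, Finset.mem_range] at hp
    have : (0 : ℝ) < p := by exact_mod_cast hp.2.1.pos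
    exact Real.log_le_log this (by exact_mod_cast Nat.lt_succ_iff.1 hp.1)
  have h6 : (Nat.primeCounting x : ℝ) / 10 ^ 9 * Real.log x ≤
      (Run7.h323.OD.ordPrimes x).card * Real.log x := by
    refine le_trans ?_ h5
    linarith
  exact le_of_mul_le_mul_right h6 hlog

theorem result : ∃ τ : ℕ → ℤ,
    (∀ n : ℕ, (UpperHalfPlane.qExpansion 1 CuspForm.discriminant).coeff n = (τ n : ℂ)) ∧
    ∃ x₀ : ℕ, ∀ x : ℕ, x₀ ≤ x → (Nat.primeCounting x : ℝ) / 10 ^ 9 ≤
      ({p : ℕ | p ≤ x ∧ ∃ _ : Fact p.Prime, SlopesZeroEleven p (τ p)}.ncard : ℝ) := by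
  have hd : Delta := Run7.h323.OD.delta_holds theta_holds
  refine ⟨tau, hd.disc, ?_⟩
  obtain ⟨x0, h⟩ := count_bound
  refine ⟨x0, fun x hx => (h x hx).trans (le_of_eq ?_)⟩
  have e : {p : ℕ | p ≤ x ∧ ∃ _ : Fact p.Prime, SlopesZeroEleven p (tau p)} =
      ((Run7.h323.OD.ordPrimes x : Finset ℕ) : Set ℕ) := by
    ext p
    simp only [Run7.h323.OD.ordPrimes, Set.mem_setOf_eq, Finset.coe_filter, Finset.mem_range,
      Nat.lt_succ_iff]
    constructor
    · rintro ⟨h1, hF, h2⟩
      exact ⟨h1, hF.out, (slopes_iff p (tau p)).1 h2⟩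
    · rintro ⟨h1, hp, h2⟩
      have : Fact p.Prime := ⟨hp⟩
      exact ⟨h1, ⟨hp⟩, (slopes_iff p (tau p)).2 h2⟩
  rw [e, Set.ncard_coe_finset]

end Pool.Agent.Results.MP_db07cb_ag.RamanujanDelta
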