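import Pool.Agent.Run7.h635.GEN.Inf
import Pool.Agent.Run7.h635.GEN.Slopes

/-!
# Ordinary primes of number fields for the eigenforms of weight at least 3 with integral
coefficients

The two-dimensional Galois representations of these forms occur in the intersection cohomology of
projective varieties, for example of rigid Calabi-Yau threefolds (weight 4) and of the coarse moduli
space of stable curves of genus one with eleven marked points (weight 12).
-/

set_option autoImplicit false

open MatrixGroups UpperHalfPlane CongruenceSubgroup NumberField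

namespace Pool.Agent.Results.MP_db07cb_ag.RationalEigenforms

/-- The Hecke operator `T_p` (`U_p` if `p ∣ M`) of weight `k` and level `Γ_0(M)` on functions on
the upper half-plane: `z ↦ p^(k-1) f(pz) + p^(-1) ∑_{b mod p} f((z+b)/p)`, where the first term is
left out if `p ∣ M`. -/
noncomputable def heckeT (M k p : ℕ) (f : ℍ → ℂ) (z : ℍ) : ℂ :=
  (if p ∣ M then 0 else (p : ℂ) ^ (k - 1) * f (ofComplex ((p : ℂ) * z))) +
    (∑ b ∈ Finset.range p, f (ofComplex (((z : ℂ) + b) / p))) / p

/-- `f`, a cusp form of weight `k` on `Γ_0(M)`, is a normalized Hecke eigenform with the rational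
integral coefficients `a n`: `f = ∑ a_n e(nz)`, `a_1 = 1`, and `f` is an eigenfunction of `T_p` for
all primes `p`. -/
structure IsIntegralEigenform {M k : ℕ} (f : CuspForm (Gamma0 M) k) (a : ℕ → ℤ) : Prop where
  coeff : ∀ n, (qExpansion 1 f).coeff n = a n
  one : a 1 = 1
  hecke : ∀ p : ℕ, p.Prime → ∃ c : ℂ, ∀ z : ℍ, heckeT M k p f z = c * f z

/-- The maximal ideal `v` of the ring of integers of `F`, of norm `p^r`, is ordinary for the
system of Frobenius polynomials `T² - a_p T + p^m`: `p` does not divide the level `M`,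
`T² - a_p T + p^m = (T - α) (T - β)` over `ℚ_p`, and the eigenvalues `α^r`, `β^r` of the Frobenius at
`v` have the absolute values `1` and `N(v)^(-m)`: the Newton polygon of the Frobenius at `v`, for the
valuation with the value `1` at `N(v)`, is the Hodge-Tate polygon with the slopes `0` and `m`. -/
def OrdinaryPrime {F : Type*} [Field F] [NumberField F] (M m : ℕ) (a : ℕ → ℤ) (v : Ideal (𝓞 F)) :
    Prop :=
  v.IsMaximal ∧ ∃ (p r : ℕ) (_ : Fact p.Prime), Ideal.absNorm v = p ^ r ∧ 1 ≤ r ∧ ¬ p ∣ M ∧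
    ∃ α β : ℚ_[p],
      (Polynomial.X ^ 2 - Polynomial.C (a p : ℚ_[p]) * Polynomial.X +
        Polynomial.C ((p : ℚ_[p]) ^ m)) =
        (Polynomial.X - Polynomial.C α) * (Polynomial.X - Polynomial.C β) ∧
      ‖α ^ r‖ = 1 ∧ ‖β ^ r‖ = ((p : ℝ) ^ r) ^ (-(m : ℤ))

/-- **For every normalized eigenform of weight `k ≥ 3` on `Γ_0(M)` with rational integral
coefficients `a_n` and every number field `F`, there are infinitely many maximal ideals of the ring
of integers of `F` which are ordinary for the Frobenius polynomials `T² - a_p T + p^(k-1)`.** -/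
theorem result (M k : ℕ) [NeZero M] (hk : 3 ≤ k) (f : CuspForm (Gamma0 M) k) (a : ℕ → ℤ)
    (hf : IsIntegralEigenform f a) (F : Type*) [Field F] [NumberField F] :
    {v : Ideal (𝓞 F) | OrdinaryPrime M (k - 1) a v}.Infinite := by
  have h1 : (qExpansion 1 f).coeff 1 = 1 := by rw [hf.coeff, hf.one, Int.cast_one]
  have hinf := H635.GEN.PosLog.infinite (H635.GEN.rat M k hk f h1 hf.hecke a hf.coeff)
  have hFT : Algebra.FiniteType ℤ (𝓞 F) := inferInstance
  have hex : ∀ p : ℕ, p.Prime → ∃ v : Ideal (𝓞 F), v.IsMaximal ∧ (p : 𝓞 F) ∈ v := by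
    intro p hp
    have h2 : ¬ IsUnit (p : 𝓞 F) := by
      intro hu
      have h3 := (NumberField.isUnit_iff_norm).1 hu
      have h4 : ((RingOfIntegers.norm ℚ (p : 𝓞 F) : 𝓞 ℚ) : ℚ) =
          (p : ℚ) ^ Module.finrank ℚ F := by
        rw [RingOfIntegers.coe_norm]
        have := Algebra.norm_algebraMap (R := ℚ) (S := F) (p : ℚ)
        simpa using this
      rw [h4] at h3
      have h5 : |(p : ℚ) ^ Module.finrank ℚ F| = (p : ℚ) ^ Module.finrank ℚ F :=
        abs_of_nonneg (by positivity)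
      rw [h5] at h3
      have h6 : (1 : ℚ) < p := by exact_mod_cast hp.one_lt
      exact absurd h3 (one_lt_pow₀ h6 (Module.finrank_pos).ne').ne'
    obtain ⟨v, hv, hpv⟩ := Ideal.exists_le_maximal _ ((Ideal.span_singleton_ne_top) h2)
    exact ⟨v, hv, hpv (Ideal.mem_span_singleton_self _)⟩
  choose! V hV1 hV2 using hex
  refine Set.infinite_of_injOn_mapsTo (f := V) ?_ ?_ hinf
  · intro p hp q hq hpq
    by_contra hne
    have h2 : IsCoprime ((p : ℕ) : ℤ) ((q : ℕ) : ℤ) :=
      Nat.isCoprime_iff_coprime.2 ((Nat.coprime_primes hp.1 hq.1).2 hne)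
    obtain ⟨x, y, hxy⟩ := h2
    have h3 : (1 : 𝓞 F) ∈ V p := by
      have h4 : ((x : ℤ) : 𝓞 F) * (p : 𝓞 F) + ((y : ℤ) : 𝓞 F) * (q : 𝓞 F) = 1 := by
        have := congrArg (fun n : ℤ => (n : 𝓞 F)) hxy
        push_cast at this
        exact this
      rw [← h4]
      exact add_mem (Ideal.mul_mem_left _ _ (hV2 p hp.1))
        (Ideal.mul_mem_left _ _ (by rw [hpq]; exact hV2 q hq.1))
    exact (hV1 p hp.1).ne_top ((Ideal.eq_top_iff_one _).2 h3)
  · rintro p ⟨hp, hpM, hpa⟩
    have : Fact p.Prime := ⟨hp⟩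
    have hmax := hV1 p hp
    obtain ⟨r, hr, hcard⟩ := H635.GEN.card_residue (𝓞 F) (V p) hp (hV2 p hp)
    obtain ⟨α, β, hα, hβ, hαβ⟩ := (H635.GEN.Slopes.slopes_iff (k - 1) p (by omega) (a p)).2 hpa
    refine ⟨hV1 p hp, p, r, this, ?_, hr, hpM, α, β, hαβ, ?_, ?_⟩
    · rw [← hcard]
      rfl
    · rw [norm_pow, hα, one_pow]
    · rw [norm_pow, hβ, zpow_neg, zpow_neg, inv_pow, zpow_natCast, zpow_natCast, ← pow_mul,
        ← pow_mul, mul_comm]

end Pool.Agent.Results.MP_db07cb_ag.RationalEigenforms
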