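import Pool.Agent.Run7.h328.ORD.Trig3
import Pool.Agent.Run7.h328.ORD.PropP

/-!
# Ordinary reduction of almost all trigonal curves at a positive proportion of the places

We consider the trigonal curves `y³ + a₂(x) y² + a₁(x) y + b(x) = 0` over a number field `K`, `deg b = m`, `deg a₁ ≤ 2 m / 3`,
`deg a₂ ≤ m / 3`.  A smooth curve of this kind has genus `m - 1` if `3 ∤ m` (one point at infinity) and `m - 2` if `3 ∣ m`; `m = 4`: the
plane quartics with a rational hyperflex, `m = 6`: curves of genus four.  `a₁ = a₂ = 0`: the cyclic trigonal curves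
`y³ = f(x)` (`m = 4`: the Picard curves).

The Hasse-Witt matrix of `F = 0` is `(coefficient of x^(p u - u') in F^(p - 1))`, with `u, u'` in the set `U` of the interior lattice
points of the triangle with the vertices `(3, 0)`, `(0, 0)`, `(0, m)` (first coordinate: exponent of `y`).  If the reduction modulo `v` is
smooth, its Jacobian is ordinary (the Newton polygon of the Frobenius on `H¹` is equal to the Hodge polygon) if and only if the matrix
is invertible.

1. For every prime number `p ≡ 1 mod 3` and *every* `a₁`, `a₂` over `F_p` the matrix is invertible for at least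
   `6 ^ (-(m - ⌊m / 3⌋)) p ^ (m + 1)` of the `p ^ (m + 1)` polynomials `b`.

2. Put `δ = 6 ^ (-(m - ⌊m / 3⌋))`.  For `H` large in terms of `ε`, `m`, `d`, all number fields `K` of degree `d`, *all* `a₁`, `a₂`, `β` over
   `𝓞_K` and every family `𝒮` of at most `H ^ (ε / 500)` sets of places of `K`: for all `b ∈ [-H, H] ^ (m + 1)` outside a proportion
   `H ^ (-ε / 500)`,

   `#{v ∈ S : q_v ≤ N, p_v ≡ 1 (3), matrix invertible mod v} ≥ δ #{v ∈ S : q_v ≤ N, p_v ≡ 1 (3)} - C (N ^ (1 / 2 + ε) + (log H) ^ (4 / ε))`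

   for all `S ∈ 𝒮` and all `N ≤ H ^ (ε / 200)` at the same time, for the curve with `a₁`, `a₂` and the coefficients `β + b`.
   (For `p_v ≡ 2 mod 3` the cyclic curves are not ordinary.)

Proof of 1.  Give `b_t` the weight `W - t²` if `3 ∤ t` and `W - t² - 2` if `3 ∣ t`, `W` a large constant, and the coefficients of `a₁`, `a₂` the
weight `0`.  Let `c = 3 u_x / (3 - u_y)`.  The concave hull of the weights is linear between `c - h` and `c + h`, `h = 1` for `3 ∣ c` and
`h = 1 / 2` otherwise; so the diagonal entry of `u` has the leading monomial `(b_{c - h} b_{c + h}) ^ ((p - 1) (3 - u_y) / 6)` whose coefficient is a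
multinomial coefficient of order `p - 1`; the supporting functionals show that the identity is the only permutation which contributes to
the leading monomial of the determinant (`u` and `u'` with the same `c` have `u_y ≠ u'_y`, and the exponent `p u_y - u'_y` is not a multiple of
`3`).  The exponents of `b_t` add up to at most `5 (p - 1) / 6`, and the footprint bound gives 1.  Proof of 2: the residues of `b` modulo the
square-free numbers up to a power of `H` are uniformly distributed; the high moments of the sum over the primes `v` of degree one in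
dyadic intervals are small.
-/

set_option autoImplicit false

open Filter

namespace Pool.Agent.Results.MP_db07cb_ag.TrigonalCurves

open NumberField IsDedekindDomain Finset

/-- `F = y³ + a₂(x) y² + a₁(x) y + b(x)`, with `y = X 0`, `x = X 1`; polynomials in `x` are given by their coefficients. -/
noncomputable def poly {k : Type} [Field k] {m : ℕ} (a₂ a₁ b : Fin (m + 1) → k) : MvPolynomial (Fin 2) k :=
  MvPolynomial.X 0 ^ 3 + (∑ j, MvPolynomial.C (a₂ j) * MvPolynomial.X 1 ^ (j : ℕ)) * MvPolynomial.X 0 ^ 2 +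
    (∑ j, MvPolynomial.C (a₁ j) * MvPolynomial.X 1 ^ (j : ℕ)) * MvPolynomial.X 0 +
    ∑ j, MvPolynomial.C (b j) * MvPolynomial.X 1 ^ (j : ℕ)

/-- The exponents `(i, j)` of the monomials `y^i x^j` in the interior of the triangle with the vertices `(3, 0)`, `(0, 0)`, `(0, m)`. -/
def interior (m : ℕ) : Finset (ℕ × ℕ) := ((Icc 1 2) ×ˢ (Icc 1 m)).filter fun u => m * u.1 + 3 * u.2 < 3 * m

open Classical in
/-- The Hasse-Witt matrix in characteristic `p`: the coefficients of the monomials with the exponents `p u - u'` in `F ^ (p - 1)` (zero if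
`p u - u'` has a negative coordinate). -/
noncomputable def hasseWitt {k : Type} [Field k] (p m : ℕ) (F : MvPolynomial (Fin 2) k) : Matrix (interior m) (interior m) k :=
  Matrix.of fun u u' => if u'.1.1 ≤ p * u.1.1 ∧ u'.1.2 ≤ p * u.1.2 then
    MvPolynomial.coeff (Finsupp.single 0 (p * u.1.1 - u'.1.1) + Finsupp.single 1 (p * u.1.2 - u'.1.2)) (F ^ (p - 1)) else 0

section
variable {K : Type} [Field K] [NumberField K]

/-- `q_v`, the norm of `v`. -/
noncomputable def q (v : HeightOneSpectrum (𝓞 K)) : ℕ := Ideal.absNorm v.asIdeal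

/-- `p_v`, the residue characteristic of `v`. -/
noncomputable def pv (v : HeightOneSpectrum (𝓞 K)) : ℕ := ringChar (𝓞 K ⧸ v.asIdeal)

/-- A polynomial modulo `v`. -/
noncomputable def bar (v : HeightOneSpectrum (𝓞 K)) {m : ℕ} (b : Fin (m + 1) → 𝓞 K) : Fin (m + 1) → 𝓞 K ⧸ v.asIdeal :=
  fun j => Ideal.Quotient.mk v.asIdeal (b j)

/-- The Hasse-Witt matrix of `y³ + a₂(x) y² + a₁(x) y + b(x)` is invertible modulo `v`. -/
def Ordinary {m : ℕ} (v : HeightOneSpectrum (𝓞 K)) (a₂ a₁ b : Fin (m + 1) → 𝓞 K) : Prop :=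
  (hasseWitt (pv v) m (poly (bar v a₂) (bar v a₁) (bar v b))).det ≠ 0

end

/-- The box `[-H, H] ^ (m + 1)`. -/
noncomputable def cube (m H : ℕ) : Finset (Fin (m + 1) → ℤ) := Fintype.piFinset fun _ => Icc (-(H : ℤ)) H

open Run7.h328.ORD.Trig in
theorem poly_eq {k : Type} [Field k] {m : ℕ} (a : Fin 2 × Fin (m + 1) → k) (b : Fin (m + 1) → k) :
    Run7.h328.ORD.Fn.PP (ex m) (co m a b) = poly (fun j => a (1, j)) (fun j => a (0, j)) b := by
  unfold Run7.h328.ORD.Fn.PP poly
  rw [Fintype.sum_sum_type, Fintype.sum_option, Fintype.sum_prod_type, Fin.sum_univ_two]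
  have h0 : (MvPolynomial.monomial (ex m (Sum.inl none)) (co m a b (Sum.inl none)) : MvPolynomial (Fin 2) k) = MvPolynomial.X 0 ^ 3 := by
    show (MvPolynomial.monomial (E2 3 0) (1 : k)) = _
    unfold E2
    rw [MvPolynomial.X_pow_eq_monomial, Finsupp.single_zero, add_zero]
  have hm : ∀ (i j : ℕ) (x : k), (MvPolynomial.monomial (E2 i j) x : MvPolynomial (Fin 2) k) =
      MvPolynomial.C x * MvPolynomial.X 1 ^ j * MvPolynomial.X 0 ^ i := by
    intro i j x
    unfold E2
    rw [MvPolynomial.X_pow_eq_monomial, MvPolynomial.X_pow_eq_monomial, MvPolynomial.C_mul_monomial, MvPolynomial.monomial_mul,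
      mul_one, mul_one, add_comm]
  have h1 : ∀ j, (MvPolynomial.monomial (ex m (Sum.inl (some (0, j)))) (co m a b (Sum.inl (some (0, j)))) : MvPolynomial (Fin 2) k) =
      (MvPolynomial.C (a (0, j)) * MvPolynomial.X 1 ^ (j : ℕ)) * MvPolynomial.X 0 := by
    intro j
    show (MvPolynomial.monomial (E2 (((0 : Fin 2) : ℕ) + 1) j) (a (0, j))) = _
    rw [hm]
    simp
  have h2 : ∀ j, (MvPolynomial.monomial (ex m (Sum.inl (some (1, j)))) (co m a b (Sum.inl (some (1, j)))) : MvPolynomial (Fin 2) k) =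
      (MvPolynomial.C (a (1, j)) * MvPolynomial.X 1 ^ (j : ℕ)) * MvPolynomial.X 0 ^ 2 := by
    intro j
    show (MvPolynomial.monomial (E2 (((1 : Fin 2) : ℕ) + 1) j) (a (1, j))) = _
    rw [hm]
    simp
  have h3 : ∀ j, (MvPolynomial.monomial (ex m (Sum.inr j)) (co m a b (Sum.inr j)) : MvPolynomial (Fin 2) k) =
      MvPolynomial.C (b j) * MvPolynomial.X 1 ^ (j : ℕ) := by
    intro j
    show (MvPolynomial.monomial (E2 0 j) (b j)) = _
    rw [hm]
    simp
  rw [h0, Finset.sum_congr rfl fun j _ => h1 j, Finset.sum_congr rfl fun j _ => h2 j, Finset.sum_congr rfl fun j _ => h3 j,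
    ← Finset.sum_mul, ← Finset.sum_mul]
  ring

open Run7.h328.ORD.Trig in
theorem hw_eq {k : Type} [Field k] {m : ℕ} (p : ℕ) (a : Fin 2 × Fin (m + 1) → k) (b : Fin (m + 1) → k) :
    Run7.h328.ORD.Fn.HWm p (p - 1) (ex m) (uu m) (co m a b) = hasseWitt p m (poly (fun j => a (1, j)) (fun j => a (0, j)) b) := by
  classical
  ext u u'
  unfold Run7.h328.ORD.Fn.HWm hasseWitt
  show (if uu m u' ≤ p • uu m u then
      MvPolynomial.coeff (p • uu m u - uu m u') (Run7.h328.ORD.Fn.PP (ex m) (co m a b) ^ (p - 1)) else 0) =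
    (if u'.1.1 ≤ p * u.1.1 ∧ u'.1.2 ≤ p * u.1.2 then
    MvPolynomial.coeff (Finsupp.single 0 (p * u.1.1 - u'.1.1) + Finsupp.single 1 (p * u.1.2 - u'.1.2))
      (poly (fun j => a (1, j)) (fun j => a (0, j)) b ^ (p - 1)) else 0)
  rw [poly_eq, uu_sub]
  have h : uu m u' ≤ p • uu m u ↔ u'.1.1 ≤ p * u.1.1 ∧ u'.1.2 ≤ p * u.1.2 := by
    constructor
    · intro h
      have h0 := h 0
      have h1 := h 1
      rw [Finsupp.smul_apply, smul_eq_mul] at h0 h1
      unfold uu at h0 h1
      rw [E2_zero, E2_zero] at h0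
      rw [E2_one, E2_one] at h1
      exact ⟨h0, h1⟩
    · rintro ⟨h0, h1⟩ s
      rw [Finsupp.smul_apply, smul_eq_mul]
      unfold uu
      fin_cases s
      · show E2 _ _ 0 ≤ p * E2 _ _ 0
        rw [E2_zero, E2_zero]
        exact h0
      · show E2 _ _ 1 ≤ p * E2 _ _ 1
        rw [E2_one, E2_one]
        exact h1
  by_cases hc : u'.1.1 ≤ p * u.1.1 ∧ u'.1.2 ≤ p * u.1.2
  · rw [if_pos hc, if_pos (h.2 hc)]
    rfl
  · rw [if_neg hc, if_neg (fun h' => hc (h.1 h'))]

/-- the local property -/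
def Lp (m : ℕ) (k : Type) [Field k] (a : Fin 2 × Fin (m + 1) → k) (b : Fin (m + 1) → k) : Prop :=
  ringChar k % 3 = 1 → (hasseWitt (ringChar k) m (poly (fun j => a (1, j)) (fun j => a (0, j)) b)).det ≠ 0

open Run7.h328.ORD.Trig in
theorem Lp_iso (m : ℕ) (k k' : Type) [Field k] [Field k'] (e : k ≃+* k') (a : Fin 2 × Fin (m + 1) → k) (c : Fin (m + 1) → k) :
    Lp m k' (fun i => e (a i)) (fun i => e (c i)) ↔ Lp m k a c := by
  have hchar : ringChar k' = ringChar k := by
    have : CharP k' (ringChar k) := by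
      constructor
      intro x
      rw [← ringChar.spec k x, ← map_natCast e, map_eq_zero_iff e e.injective]
    exact ringChar.eq k' (ringChar k)
  unfold Lp
  rw [hchar]
  have h1 := hw_eq (ringChar k) (fun i => e (a i)) (fun i => e (c i))
  have h2 := hw_eq (ringChar k) a c
  have h3 : co m (fun i => e (a i)) (fun i => e (c i)) = fun x => (e : k →+* k') (co m a c x) := by
    funext x
    rcases x with x | t
    · rcases x with _ | s
      · exact (map_one (e : k →+* k')).symm
      · rfl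
    · rfl
  rw [h3, Run7.h328.ORD.Fn.HWm_map, h2] at h1
  have h6 : hasseWitt (ringChar k) m (poly (fun j => e (a (1, j))) (fun j => e (a (0, j))) fun i => e (c i)) =
      (hasseWitt (ringChar k) m (poly (fun j => a (1, j)) (fun j => a (0, j)) c)).map (e : k →+* k') := h1.symm
  rw [h6]
  have h4 := RingHom.map_det (e : k →+* k') (hasseWitt (ringChar k) m (poly (fun j => a (1, j)) (fun j => a (0, j)) c))
  rw [RingHom.mapMatrix_apply] at h4
  rw [← h4]
  have h5 : ((e : k →+* k') (hasseWitt (ringChar k) m (poly (fun j => a (1, j)) (fun j => a (0, j)) c)).det ≠ 0) ↔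
      ((hasseWitt (ringChar k) m (poly (fun j => a (1, j)) (fun j => a (0, j)) c)).det ≠ 0) := map_ne_zero_iff _ e.injective
  rw [h5]

theorem local_count (m : ℕ) (p : ℕ) [hp : Fact p.Prime] (h3 : p % 3 = 1) (a : Fin 2 × Fin (m + 1) → ZMod p) :
    (1 / 6 : ℝ) ^ (m - m / 3) * (p : ℝ) ^ (m + 1) ≤
      Nat.card {b : Fin (m + 1) → ZMod p // (hasseWitt p m (poly (fun j => a (1, j)) (fun j => a (0, j)) b)).det ≠ 0} := by
  have h := Run7.h328.ORD.Trig.count_trig m h3 a
  refine h.trans (le_of_eq ?_)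
  congr 1
  exact Nat.card_congr (Equiv.subtypeEquivRight fun b => by rw [hw_eq]; exact Iff.rfl)

theorem Lp_zmod (m p : ℕ) [hp : Fact p.Prime] (a : Fin 2 × Fin (m + 1) → ZMod p) (b : Fin (m + 1) → ZMod p) :
    Lp m (ZMod p) a b ↔ (p % 3 = 1 → (hasseWitt p m (poly (fun j => a (1, j)) (fun j => a (0, j)) b)).det ≠ 0) := by
  have hr : ringChar (ZMod p) = p := ringChar.eq (ZMod p) p |>.symm ▸ rfl
  unfold Lp
  rw [hr]

/-- **The theorem.**  See the head of the file. -/
theorem result (m d : ℕ) :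
    (∀ (p : ℕ) [Fact p.Prime], p % 3 = 1 → ∀ a₂ a₁ : Fin (m + 1) → ZMod p,
      (1 / 6 : ℝ) ^ (m - m / 3) * (p : ℝ) ^ (m + 1) ≤
        Nat.card {b : Fin (m + 1) → ZMod p // (hasseWitt p m (poly a₂ a₁ b)).det ≠ 0}) ∧
    ∃ C : ℝ, 0 < C ∧ ∀ ε : ℝ, 0 < ε → ε ≤ 1 → ∃ H₀ : ℕ, ∀ H : ℕ, H₀ ≤ H →
      ∀ (K : Type) [Field K] [NumberField K], Module.finrank ℚ K = d → ∀ a₂ a₁ β : Fin (m + 1) → 𝓞 K,
      ∀ 𝒮 : Finset (Set (HeightOneSpectrum (𝓞 K))), (𝒮.card : ℝ) ≤ (H : ℝ) ^ (ε / 500) →
      ∃ X ⊆ cube m H, (X.card : ℝ) ≤ (H : ℝ) ^ (-(ε / 500)) * (2 * H + 1) ^ (m + 1) ∧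
        ∀ b ∈ cube m H \ X, ∀ S ∈ 𝒮, ∀ N : ℕ, (N : ℝ) ≤ (H : ℝ) ^ (ε / 200) →
          (1 / 6 : ℝ) ^ (m - m / 3) * Nat.card {v : HeightOneSpectrum (𝓞 K) // v ∈ S ∧ pv v % 3 = 1 ∧ q v ≤ N} -
              C * ((N : ℝ) ^ (1 / 2 + ε) + Real.log H ^ (4 / ε)) ≤
            Nat.card {v : HeightOneSpectrum (𝓞 K) // v ∈ S ∧ pv v % 3 = 1 ∧ q v ≤ N ∧
              Ordinary v a₂ a₁ (fun j => β j + (b j : 𝓞 K))} := by
  classical
  have hδ1 : (1 / 6 : ℝ) ^ (m - m / 3) ≤ 1 := pow_le_one₀ (by norm_num) (by norm_num)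
  constructor
  · intro p hp h3 a₂ a₁
    exact local_count m p h3 (fun s => if s.1 = 1 then a₂ s.2 else a₁ s.2)
  · obtain ⟨C, hC, h⟩ := Run7.h328.ORD.PP.propP (fun k _ a c => Lp m k a c) (fun k k' _ _ e a c => Lp_iso m k k' e a c) d
      ((1 / 6 : ℝ) ^ (m - m / 3)) 0 hδ1 le_rfl (fun p hp a => by
        rw [zero_div, sub_zero]
        unfold Run7.h328.ORD.PP.dp
        have hp0 : 0 < Nat.card (ZMod p) := by
          rw [Nat.card_zmod]
          exact hp.out.pos
        rw [le_div_iff₀ (by positivity), Fintype.card_fin, Nat.card_zmod]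
        by_cases h3 : p % 3 = 1
        · refine (local_count m p h3 a).trans (le_of_eq ?_)
          congr 1
          refine Nat.card_congr (Equiv.subtypeEquivRight fun b => ?_)
          exact Iff.trans ⟨fun h _ => h, fun h => h h3⟩ (Lp_zmod m p a b).symm
        · have e : Nat.card {c : Fin (m + 1) → ZMod p // Lp m (ZMod p) a c} = p ^ (m + 1) := by
            have h4 : Nat.card {c : Fin (m + 1) → ZMod p // Lp m (ZMod p) a c} = Nat.card (Fin (m + 1) → ZMod p) := by
              refine Nat.card_congr (Equiv.subtypeUnivEquiv fun b => ?_)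
              exact (Lp_zmod m p a b).2 fun h => absurd h h3
            rw [h4, Nat.card_fun, Nat.card_zmod, Nat.card_eq_fintype_card (α := Fin (m + 1)), Fintype.card_fin]
          rw [e]
          push_cast
          exact mul_le_of_le_one_left (by positivity) hδ1)
    refine ⟨C, hC, fun ε hε hε1 => ?_⟩
    obtain ⟨H₀, h⟩ := Filter.eventually_atTop.1 (h ε hε hε1)
    refine ⟨H₀, fun H hH K _ _ hK a₂ a₁ β 𝒮 h𝒮 => ?_⟩
    obtain ⟨Ex, hE1, hE2, hE3⟩ := h H hH K hK (fun s => if s.1 = 1 then a₂ s.2 else a₁ s.2) β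
      (𝒮.image fun S => S ∩ {v | pv v % 3 = 1}) (le_trans (by exact_mod_cast Finset.card_image_le) h𝒮)
    have hbox : Pool.Agent.Y722.HS.box (Fin (m + 1)) H = cube m H := rfl
    have hcard : ((cube m H).card : ℝ) = (2 * H + 1) ^ (m + 1) := by
      unfold cube
      rw [Fintype.card_piFinset]
      simp only [Int.card_Icc, Finset.prod_const, Finset.card_univ, Fintype.card_fin]
      have : ((H : ℤ) + 1 - -(H : ℤ)).toNat = 2 * H + 1 := by omega
      rw [this]
      push_cast
      ring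
    rw [hbox] at hE1 hE2 hE3
    refine ⟨Ex, hE1, ?_, ?_⟩
    · rw [← hcard]
      exact hE2
    · intro b hb S hS N hN
      have h1 := hE3 b hb _ (Finset.mem_image_of_mem _ hS) N hN
      have e0 : Nat.card {v : HeightOneSpectrum (𝓞 K) // v ∈ S ∩ {v | pv v % 3 = 1} ∧ Pool.Agent.H921R2.TatePole.nm v ≤ N} =
          Nat.card {v : HeightOneSpectrum (𝓞 K) // v ∈ S ∧ pv v % 3 = 1 ∧ q v ≤ N} := by
        refine Nat.card_congr (Equiv.subtypeEquivRight fun v => ?_)
        have e1 : Pool.Agent.H921R2.TatePole.nm v = q v := rfl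
        rw [e1]
        exact and_assoc
      rw [e0] at h1
      refine h1.trans (le_of_eq ?_)
      congr 1
      refine Nat.card_congr (Equiv.subtypeEquivRight fun v => ?_)
      have e1 : Pool.Agent.H921R2.TatePole.nm v = q v := rfl
      rw [e1]
      have e2 : pv v % 3 = 1 → (Lp m (𝓞 K ⧸ v.asIdeal)
          (Run7.h328.ORD.rvg v (fun s : Fin 2 × Fin (m + 1) => if s.1 = 1 then a₂ s.2 else a₁ s.2))
          (Run7.h328.ORD.rvg v fun j => β j + (b j : 𝓞 K)) ↔ Ordinary v a₂ a₁ (fun j => β j + (b j : 𝓞 K))) := by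
        intro h3
        unfold Lp Ordinary
        exact ⟨fun h => h h3, fun h _ => h⟩
      constructor
      · rintro ⟨⟨⟨g1, g2⟩, g3⟩, g4⟩
        exact ⟨g1, g2, g3, (e2 g2).1 g4⟩
      · rintro ⟨g1, g2, g3, g4⟩
        exact ⟨⟨⟨g1, g2⟩, g3⟩, (e2 g2).2 g4⟩

end Pool.Agent.Results.MP_db07cb_ag.TrigonalCurves
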