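import Pool.Agent.Run7.h328.ORD.Pla3
import Pool.Agent.Run7.h328.ORD.PropP

/-!
# Ordinary reduction of almost all triple planes at a positive proportion of the places

We consider the surfaces `y³ + a₂(x, z) y² + a₁(x, z) y + b(x, z) = 0` over a number field `K`, `deg b = m`, `a₁`, `a₂` of degree at most
`m`.  If `deg a₁ ≤ 2 m / 3` and `deg a₂ ≤ m / 3`, these are the triple planes, surfaces of degree `m` in the weighted projective space
`P(1, 1, 1, m / 3)` if `3 ∣ m`; `m = 6` and `m = 9` are surfaces of general type with `p_g = 3` and `p_g = 11`.  `a₁ = a₂ = 0`: the cyclic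
triple planes `y³ = f(x, z)`.  For `m = 4`, `deg a₁ ≤ 3`, `deg a₂ ≤ 2` these are the quartic surfaces with a `K`-rational point (moved to the
point at infinity of the `y`-axis, with the plane at infinity as tangent plane).

The Frobenius map of `H²(𝓞)` is given by the Hasse-Witt matrix `(coefficient of x^(p u - u') in F^(p - 1))`, with `u, u'` in the set `U` of
the interior lattice points of the tetrahedron with the vertices `(3, 0, 0)`, `(0, 0, 0)`, `(0, m, 0)`, `(0, 0, m)` (first coordinate: exponent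
of `y`); `p_g = |U|`.  If the matrix is invertible at a place `v` of good reduction, the slopes `0` and `2` occur `p_g` times each in `H²`,
and then the Newton polygon of `H²` is equal to the Hodge polygon.

1. For every prime number `p ≡ 1 mod 3` and *every* `a₁`, `a₂` over `F_p` the matrix is invertible for at least the proportion
   `36 ^ (-|U|)` of the polynomials `b`.

2. For `H` large in terms of `ε`, `m`, `d`, all number fields `K` of degree `d`, *all* `a₁`, `a₂`, `β` over `𝓞_K` and every family `𝒮` of at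
   most `H ^ (ε / 500)` sets of places of `K`: for all `b` with integral coefficients in `[-H, H]` outside a proportion `H ^ (-ε / 500)`,

   `#{v ∈ S : q_v ≤ N, p_v ≡ 1 (3), matrix invertible mod v} ≥ 36 ^ (-|U|) #{v ∈ S : q_v ≤ N, p_v ≡ 1 (3)} - C (N ^ (1 / 2 + ε) + (log H) ^ (4 / ε))`

   for all `S ∈ 𝒮` and all `N ≤ H ^ (ε / 200)` at the same time, for the surface with `a₁`, `a₂` and the coefficients `β + b`.

Proof of 1.  Let `Q(x, z) = 2 x² + x z + 3 z²` and give the coefficient of `x^i z^j` in `b` the weight `W - Q(i, j)`, and `W - Q(i, j) - 4` if `i` and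
`j` are divisible by `3`; the coefficients of `a₁`, `a₂` have the weight `0`.  Let `c = 3 (u_x, u_z) / (3 - u_y)`.  The concave hull of the
weights is linear at `c` exactly between `c - h` and `c + h`, where `2 h = (2, 0), (1, 0), (0, 1), (1, -1)` according to the class of `2 c` modulo
`2`.  So the diagonal entry of `u` has the leading monomial `(b_{c - h} b_{c + h}) ^ ((p - 1) (3 - u_y) / 6)` with a multinomial coefficient of order
`p - 1`, and the supporting functionals show that the identity is the only permutation which contributes to the leading monomial of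
the determinant.  The exponents of every coefficient of `b` add up to at most `5 (p - 1) / 6`, and the footprint bound gives 1.  Proof of
2: the residues of `b` modulo the square-free numbers up to a power of `H` are uniformly distributed; the high moments of the sum over
the primes `v` of degree one in dyadic intervals are small.
-/

set_option autoImplicit false

open Filter

namespace Pool.Agent.Results.MP_db07cb_ag.TriplePlanes

open NumberField IsDedekindDomain Finset

/-- The exponents of the monomials of degree at most `m` in two variables. -/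
def exps (m : ℕ) : Finset (ℕ × ℕ) := ((range (m + 1)) ×ˢ (range (m + 1))).filter fun t => t.1 + t.2 ≤ m

/-- The polynomial of degree at most `m` in `x = X 1` and `z = X 2` with the coefficients `b`. -/
noncomputable def plane {k : Type} [Field k] {m : ℕ} (b : exps m → k) : MvPolynomial (Fin 3) k :=
  ∑ t : exps m, MvPolynomial.C (b t) * MvPolynomial.X 1 ^ t.1.1 * MvPolynomial.X 2 ^ t.1.2

/-- `F = y³ + a₂(x, z) y² + a₁(x, z) y + b(x, z)`, with `y = X 0`, `x = X 1`, `z = X 2`. -/
noncomputable def poly {k : Type} [Field k] {m : ℕ} (a₂ a₁ b : exps m → k) : MvPolynomial (Fin 3) k :=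
  MvPolynomial.X 0 ^ 3 + plane a₂ * MvPolynomial.X 0 ^ 2 + plane a₁ * MvPolynomial.X 0 + plane b

/-- The exponents `(i, j, k)` of the monomials `y^i x^j z^k` in the interior of the tetrahedron with the vertices `(3, 0, 0)`, `(0, 0, 0)`,
`(0, m, 0)`, `(0, 0, m)`. -/
def interior (m : ℕ) : Finset (ℕ × ℕ × ℕ) :=
  ((Icc 1 2) ×ˢ (Icc 1 m) ×ˢ (Icc 1 m)).filter fun u => m * u.1 + 3 * (u.2.1 + u.2.2) < 3 * m

open Classical in
/-- The Hasse-Witt matrix in characteristic `p`: the coefficients of the monomials with the exponents `p u - u'` in `F ^ (p - 1)` (zero if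
`p u - u'` has a negative coordinate). -/
noncomputable def hasseWitt {k : Type} [Field k] (p m : ℕ) (F : MvPolynomial (Fin 3) k) : Matrix (interior m) (interior m) k :=
  Matrix.of fun u u' => if u'.1.1 ≤ p * u.1.1 ∧ u'.1.2.1 ≤ p * u.1.2.1 ∧ u'.1.2.2 ≤ p * u.1.2.2 then
    MvPolynomial.coeff (Finsupp.single 0 (p * u.1.1 - u'.1.1) + Finsupp.single 1 (p * u.1.2.1 - u'.1.2.1) +
      Finsupp.single 2 (p * u.1.2.2 - u'.1.2.2)) (F ^ (p - 1)) else 0

section
variable {K : Type} [Field K] [NumberField K]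

/-- `q_v`, the norm of `v`. -/
noncomputable def q (v : HeightOneSpectrum (𝓞 K)) : ℕ := Ideal.absNorm v.asIdeal

/-- `p_v`, the residue characteristic of `v`. -/
noncomputable def pv (v : HeightOneSpectrum (𝓞 K)) : ℕ := ringChar (𝓞 K ⧸ v.asIdeal)

/-- The coefficients modulo `v`. -/
noncomputable def bar (v : HeightOneSpectrum (𝓞 K)) {m : ℕ} (b : exps m → 𝓞 K) : exps m → 𝓞 K ⧸ v.asIdeal :=
  fun j => Ideal.Quotient.mk v.asIdeal (b j)

/-- The Hasse-Witt matrix of `y³ + a₂ y² + a₁ y + b` is invertible modulo `v`. -/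
def Ordinary {m : ℕ} (v : HeightOneSpectrum (𝓞 K)) (a₂ a₁ b : exps m → 𝓞 K) : Prop :=
  (hasseWitt (pv v) m (poly (bar v a₂) (bar v a₁) (bar v b))).det ≠ 0

end

/-- The polynomials with integral coefficients in `[-H, H]`. -/
noncomputable def cube (m H : ℕ) : Finset (exps m → ℤ) := Fintype.piFinset fun _ => Icc (-(H : ℤ)) H

open Run7.h328.ORD.Pla in
theorem poly_eq {k : Type} [Field k] {m : ℕ} (a : Fin 2 × E m → k) (b : E m → k) :
    Run7.h328.ORD.Fn.PP (ex m) (co m a b) = poly (m := m) (fun j => a (1, j)) (fun j => a (0, j)) b := by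
  unfold Run7.h328.ORD.Fn.PP poly plane
  rw [Fintype.sum_sum_type, Fintype.sum_option, Fintype.sum_prod_type, Fin.sum_univ_two]
  have h0 : (MvPolynomial.monomial (ex m (Sum.inl none)) (co m a b (Sum.inl none)) : MvPolynomial (Fin 3) k) = MvPolynomial.X 0 ^ 3 := by
    show (MvPolynomial.monomial (E3 3 0 0) (1 : k)) = _
    unfold E3
    rw [MvPolynomial.X_pow_eq_monomial, Finsupp.single_zero, Finsupp.single_zero, add_zero, add_zero]
  have hm : ∀ (i j l : ℕ) (x : k), (MvPolynomial.monomial (E3 i j l) x : MvPolynomial (Fin 3) k) =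
      MvPolynomial.C x * MvPolynomial.X 1 ^ j * MvPolynomial.X 2 ^ l * MvPolynomial.X 0 ^ i := by
    intro i j l x
    unfold E3
    rw [MvPolynomial.X_pow_eq_monomial, MvPolynomial.X_pow_eq_monomial, MvPolynomial.X_pow_eq_monomial, MvPolynomial.C_mul_monomial,
      MvPolynomial.monomial_mul, MvPolynomial.monomial_mul, mul_one, mul_one, mul_one]
    congr 1
    abel
  have h1 : ∀ j, (MvPolynomial.monomial (ex m (Sum.inl (some (0, j)))) (co m a b (Sum.inl (some (0, j)))) : MvPolynomial (Fin 3) k) =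
      (MvPolynomial.C (a (0, j)) * MvPolynomial.X 1 ^ j.1.1 * MvPolynomial.X 2 ^ j.1.2) * MvPolynomial.X 0 := by
    intro j
    show (MvPolynomial.monomial (E3 (((0 : Fin 2) : ℕ) + 1) j.1.1 j.1.2) (a (0, j))) = _
    rw [hm]
    simp
  have h2 : ∀ j, (MvPolynomial.monomial (ex m (Sum.inl (some (1, j)))) (co m a b (Sum.inl (some (1, j)))) : MvPolynomial (Fin 3) k) =
      (MvPolynomial.C (a (1, j)) * MvPolynomial.X 1 ^ j.1.1 * MvPolynomial.X 2 ^ j.1.2) * MvPolynomial.X 0 ^ 2 := by
    intro j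
    show (MvPolynomial.monomial (E3 (((1 : Fin 2) : ℕ) + 1) j.1.1 j.1.2) (a (1, j))) = _
    rw [hm]
    simp
  have h3 : ∀ j, (MvPolynomial.monomial (ex m (Sum.inr j)) (co m a b (Sum.inr j)) : MvPolynomial (Fin 3) k) =
      MvPolynomial.C (b j) * MvPolynomial.X 1 ^ j.1.1 * MvPolynomial.X 2 ^ j.1.2 := by
    intro j
    show (MvPolynomial.monomial (E3 0 j.1.1 j.1.2) (b j)) = _
    rw [hm]
    simp
  rw [h0, Finset.sum_congr rfl fun j _ => h1 j, Finset.sum_congr rfl fun j _ => h2 j, Finset.sum_congr rfl fun j _ => h3 j,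
    ← Finset.sum_mul, ← Finset.sum_mul]
  change _ = MvPolynomial.X 0 ^ 3 +
    (∑ j : E m, MvPolynomial.C (a (1, j)) * MvPolynomial.X 1 ^ j.1.1 * MvPolynomial.X 2 ^ j.1.2) * MvPolynomial.X 0 ^ 2 +
    (∑ j : E m, MvPolynomial.C (a (0, j)) * MvPolynomial.X 1 ^ j.1.1 * MvPolynomial.X 2 ^ j.1.2) * MvPolynomial.X 0 +
    ∑ j : E m, MvPolynomial.C (b j) * MvPolynomial.X 1 ^ j.1.1 * MvPolynomial.X 2 ^ j.1.2
  ring

open Run7.h328.ORD.Pla in
theorem hw_eq {k : Type} [Field k] {m : ℕ} (p : ℕ) (a : Fin 2 × E m → k) (b : E m → k) :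
    Run7.h328.ORD.Fn.HWm p (p - 1) (ex m) (uu m) (co m a b) =
      hasseWitt p m (poly (m := m) (fun j => a (1, j)) (fun j => a (0, j)) b) := by
  classical
  ext u u'
  unfold Run7.h328.ORD.Fn.HWm hasseWitt
  show (if uu m u' ≤ p • uu m u then
      MvPolynomial.coeff (p • uu m u - uu m u') (Run7.h328.ORD.Fn.PP (ex m) (co m a b) ^ (p - 1)) else 0) =
    (if u'.1.1 ≤ p * u.1.1 ∧ u'.1.2.1 ≤ p * u.1.2.1 ∧ u'.1.2.2 ≤ p * u.1.2.2 then
    MvPolynomial.coeff (Finsupp.single 0 (p * u.1.1 - u'.1.1) + Finsupp.single 1 (p * u.1.2.1 - u'.1.2.1) +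
      Finsupp.single 2 (p * u.1.2.2 - u'.1.2.2))
      (poly (m := m) (fun j => a (1, j)) (fun j => a (0, j)) b ^ (p - 1)) else 0)
  rw [poly_eq, uu_sub]
  have h : uu m u' ≤ p • uu m u ↔ u'.1.1 ≤ p * u.1.1 ∧ u'.1.2.1 ≤ p * u.1.2.1 ∧ u'.1.2.2 ≤ p * u.1.2.2 := by
    constructor
    · intro h
      have h0 := h 0
      have h1 := h 1
      have h2 := h 2
      rw [Finsupp.smul_apply, smul_eq_mul] at h0 h1 h2
      unfold uu at h0 h1 h2
      rw [E3_zero, E3_zero] at h0
      rw [E3_one, E3_one] at h1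
      rw [E3_two, E3_two] at h2
      exact ⟨h0, h1, h2⟩
    · rintro ⟨h0, h1, h2⟩ s
      rw [Finsupp.smul_apply, smul_eq_mul]
      unfold uu
      fin_cases s
      · show E3 _ _ _ 0 ≤ p * E3 _ _ _ 0
        rw [E3_zero, E3_zero]
        exact h0
      · show E3 _ _ _ 1 ≤ p * E3 _ _ _ 1
        rw [E3_one, E3_one]
        exact h1
      · show E3 _ _ _ 2 ≤ p * E3 _ _ _ 2
        rw [E3_two, E3_two]
        exact h2
  by_cases hc : u'.1.1 ≤ p * u.1.1 ∧ u'.1.2.1 ≤ p * u.1.2.1 ∧ u'.1.2.2 ≤ p * u.1.2.2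
  · rw [if_pos hc, if_pos (h.2 hc)]
    rfl
  · rw [if_neg hc, if_neg (fun h' => hc (h.1 h'))]

/-- the local property -/
def Lp (m : ℕ) (k : Type) [Field k] (a : Fin 2 × exps m → k) (b : exps m → k) : Prop :=
  ringChar k % 3 = 1 → (hasseWitt (ringChar k) m (poly (fun j => a (1, j)) (fun j => a (0, j)) b)).det ≠ 0

open Run7.h328.ORD.Pla in
theorem Lp_iso (m : ℕ) (k k' : Type) [Field k] [Field k'] (e : k ≃+* k') (a : Fin 2 × exps m → k) (c : exps m → k) :
    Lp m k' (fun i => e (a i)) (fun i => e (c i)) ↔ Lp m k a c := by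
  have hchar : ringChar k' = ringChar k := by
    have : CharP k' (ringChar k) := by
      constructor
      intro x
      rw [← ringChar.spec k x, ← map_natCast e, map_eq_zero_iff e e.injective]
    exact ringChar.eq k' (ringChar k)
  unfold Lp
  rw [hchar]
  have h1 := hw_eq (m := m) (ringChar k) (fun i => e (a i)) (fun i => e (c i))
  have h2 := hw_eq (m := m) (ringChar k) a c
  have h3 : co m (fun i => e (a i)) (fun i => e (c i)) = fun x => (e : k →+* k') (co m a c x) := by
    funext x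
    rcases x with x | t
    · rcases x with _ | s
      · exact (map_one (e : k →+* k')).symm
      · rfl
    · rfl
  rw [h3, Run7.h328.ORD.Fn.HWm_map, h2] at h1
  have h6 : hasseWitt (ringChar k) m (poly (fun j => e (a (1, j))) (fun j => e (a (0, j))) fun i => e (c i)) =
      (hasseWitt (ringChar k) m (poly (fun j => a (1, j)) (fun j => a (0, j)) c)).map (e : k →+* k') := h1.symm
  rw [h6]
  have h4 := RingHom.map_det (e : k →+* k') (hasseWitt (ringChar k) m (poly (fun j => a (1, j)) (fun j => a (0, j)) c))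
  rw [RingHom.mapMatrix_apply] at h4
  rw [← h4]
  have h5 : ((e : k →+* k') (hasseWitt (ringChar k) m (poly (fun j => a (1, j)) (fun j => a (0, j)) c)).det ≠ 0) ↔
      ((hasseWitt (ringChar k) m (poly (fun j => a (1, j)) (fun j => a (0, j)) c)).det ≠ 0) := map_ne_zero_iff _ e.injective
  rw [h5]

theorem local_count (m : ℕ) (p : ℕ) [hp : Fact p.Prime] (h3 : p % 3 = 1) (a : Fin 2 × exps m → ZMod p) :
    (1 / 36 : ℝ) ^ (interior m).card * (p : ℝ) ^ (exps m).card ≤
      Nat.card {b : exps m → ZMod p // (hasseWitt p m (poly (fun j => a (1, j)) (fun j => a (0, j)) b)).det ≠ 0} := by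
  have h := Run7.h328.ORD.Pla.count_pla m h3 a
  refine h.trans (le_of_eq ?_)
  congr 1
  refine Nat.card_congr (Equiv.subtypeEquivRight fun b => ?_)
  have h' := hw_eq (m := m) p a b
  exact iff_of_eq (congrArg (fun M : Matrix (interior m) (interior m) (ZMod p) => M.det ≠ 0) h')

theorem Lp_zmod (m p : ℕ) [hp : Fact p.Prime] (a : Fin 2 × exps m → ZMod p) (b : exps m → ZMod p) :
    Lp m (ZMod p) a b ↔ (p % 3 = 1 → (hasseWitt p m (poly (fun j => a (1, j)) (fun j => a (0, j)) b)).det ≠ 0) := by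
  have hr : ringChar (ZMod p) = p := ringChar.eq (ZMod p) p |>.symm ▸ rfl
  unfold Lp
  rw [hr]

/-- **The theorem.**  See the head of the file. -/
theorem result (m d : ℕ) :
    (∀ (p : ℕ) [Fact p.Prime], p % 3 = 1 → ∀ a₂ a₁ : exps m → ZMod p,
      (1 / 36 : ℝ) ^ (interior m).card * (p : ℝ) ^ (exps m).card ≤
        Nat.card {b : exps m → ZMod p // (hasseWitt p m (poly a₂ a₁ b)).det ≠ 0}) ∧
    ∃ C : ℝ, 0 < C ∧ ∀ ε : ℝ, 0 < ε → ε ≤ 1 → ∃ H₀ : ℕ, ∀ H : ℕ, H₀ ≤ H →
      ∀ (K : Type) [Field K] [NumberField K], Module.finrank ℚ K = d → ∀ a₂ a₁ β : exps m → 𝓞 K,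
      ∀ 𝒮 : Finset (Set (HeightOneSpectrum (𝓞 K))), (𝒮.card : ℝ) ≤ (H : ℝ) ^ (ε / 500) →
      ∃ X ⊆ cube m H, (X.card : ℝ) ≤ (H : ℝ) ^ (-(ε / 500)) * (2 * H + 1) ^ (exps m).card ∧
        ∀ b ∈ cube m H \ X, ∀ S ∈ 𝒮, ∀ N : ℕ, (N : ℝ) ≤ (H : ℝ) ^ (ε / 200) →
          (1 / 36 : ℝ) ^ (interior m).card * Nat.card {v : HeightOneSpectrum (𝓞 K) // v ∈ S ∧ pv v % 3 = 1 ∧ q v ≤ N} -
              C * ((N : ℝ) ^ (1 / 2 + ε) + Real.log H ^ (4 / ε)) ≤
            Nat.card {v : HeightOneSpectrum (𝓞 K) // v ∈ S ∧ pv v % 3 = 1 ∧ q v ≤ N ∧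
              Ordinary v a₂ a₁ (fun j => β j + (b j : 𝓞 K))} := by
  classical
  have hδ1 : (1 / 36 : ℝ) ^ (interior m).card ≤ 1 := pow_le_one₀ (by norm_num) (by norm_num)
  constructor
  · intro p hp h3 a₂ a₁
    exact local_count m p h3 (fun s => if s.1 = 1 then a₂ s.2 else a₁ s.2)
  · obtain ⟨C, hC, h⟩ := Run7.h328.ORD.PP.propP (fun k _ a c => Lp m k a c) (fun k k' _ _ e a c => Lp_iso m k k' e a c) d
      ((1 / 36 : ℝ) ^ (interior m).card) 0 hδ1 le_rfl (fun p hp a => by
        rw [zero_div, sub_zero]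
        unfold Run7.h328.ORD.PP.dp
        have hp0 : 0 < Nat.card (ZMod p) := by
          rw [Nat.card_zmod]
          exact hp.out.pos
        rw [le_div_iff₀ (by positivity), Fintype.card_coe, Nat.card_zmod]
        by_cases h3 : p % 3 = 1
        · refine (local_count m p h3 a).trans (le_of_eq ?_)
          congr 1
          refine Nat.card_congr (Equiv.subtypeEquivRight fun b => ?_)
          exact Iff.trans ⟨fun h _ => h, fun h => h h3⟩ (Lp_zmod m p a b).symm
        · have e : Nat.card {c : exps m → ZMod p // Lp m (ZMod p) a c} = p ^ (exps m).card := by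
            have h4 : Nat.card {c : exps m → ZMod p // Lp m (ZMod p) a c} = Nat.card (exps m → ZMod p) := by
              refine Nat.card_congr (Equiv.subtypeUnivEquiv fun b => ?_)
              exact (Lp_zmod m p a b).2 fun h => absurd h h3
            rw [h4, Nat.card_fun, Nat.card_zmod, Nat.card_eq_fintype_card (α := exps m), Fintype.card_coe]
          rw [e]
          push_cast
          exact mul_le_of_le_one_left (by positivity) hδ1)
    refine ⟨C, hC, fun ε hε hε1 => ?_⟩
    obtain ⟨H₀, h⟩ := Filter.eventually_atTop.1 (h ε hε hε1)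
    refine ⟨H₀, fun H hH K _ _ hK a₂ a₁ β 𝒮 h𝒮 => ?_⟩
    obtain ⟨Ex, hE1, hE2, hE3⟩ := h H hH K hK (fun s => if s.1 = 1 then a₂ s.2 else a₁ s.2) β
      (𝒮.image fun S => S ∩ {v | pv v % 3 = 1}) (le_trans (by exact_mod_cast Finset.card_image_le) h𝒮)
    have hbox : Pool.Agent.Y722.HS.box (exps m) H = cube m H := rfl
    have hcard : ((cube m H).card : ℝ) = (2 * H + 1) ^ (exps m).card := by
      unfold cube
      rw [Fintype.card_piFinset]
      simp only [Int.card_Icc, Finset.prod_const, Finset.card_univ, Fintype.card_coe]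
      have : ((H : ℤ) + 1 - -(H : ℤ)).toNat = 2 * H + 1 := by omega
      rw [this]
      push_cast
      ring
    rw [hbox] at hE1 hE2 hE3
    refine ⟨Ex, hE1, ?_, ?_⟩
    · rw [← hcard]
      exact hE2
    · intro b hb S hS N hN
      have h1 := hE3 b hb _ (Finset.mem_image_of_mem _ hS) N hN
      have e0 : Nat.card {v : HeightOneSpectrum (𝓞 K) // v ∈ S ∩ {v | pv v % 3 = 1} ∧ Pool.Agent.H921R2.TatePole.nm v ≤ N} =
          Nat.card {v : HeightOneSpectrum (𝓞 K) // v ∈ S ∧ pv v % 3 = 1 ∧ q v ≤ N} := by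
        refine Nat.card_congr (Equiv.subtypeEquivRight fun v => ?_)
        have e1 : Pool.Agent.H921R2.TatePole.nm v = q v := rfl
        rw [e1]
        exact and_assoc
      rw [e0] at h1
      refine h1.trans (le_of_eq ?_)
      congr 1
      refine Nat.card_congr (Equiv.subtypeEquivRight fun v => ?_)
      have e1 : Pool.Agent.H921R2.TatePole.nm v = q v := rfl
      rw [e1]
      have e2 : pv v % 3 = 1 → (Lp m (𝓞 K ⧸ v.asIdeal)
          (Run7.h328.ORD.rvg v (fun s : Fin 2 × exps m => if s.1 = 1 then a₂ s.2 else a₁ s.2))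
          (Run7.h328.ORD.rvg v fun j => β j + (b j : 𝓞 K)) ↔ Ordinary v a₂ a₁ (fun j => β j + (b j : 𝓞 K))) := by
        intro h3
        unfold Lp Ordinary
        exact ⟨fun h => h h3, fun h _ => h⟩
      constructor
      · rintro ⟨⟨⟨g1, g2⟩, g3⟩, g4⟩
        exact ⟨g1, g2, g3, (e2 g2).1 g4⟩
      · rintro ⟨g1, g2, g3, g4⟩
        exact ⟨⟨⟨g1, g2⟩, g3⟩, (e2 g2).2 g4⟩

end Pool.Agent.Results.MP_db07cb_ag.TriplePlanes
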